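import Mathlib
import Pool.Agent.H5.FM.Iface
import Pool.Agent.H21.FM.Wall
import Pool.Agent.H57.FM.Cross
import Pool.Agent.Q1.M4.Geo6
import Pool.Agent.H21.FM.Strand

set_option autoImplicit false
open Finset

/-! # Inclusion of crossing events, I: discrete geometry

Positions of the vertices of `ℤ²` in the plane of the cells of a shape, vertices and edges near the
walls, connection of the vertices of a wired arc through the wired layer. -/

namespace Pool.Agent.H79.FM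

open Pool.Agent.H75.Perc (dir dir_cases Co Ad IsUnit4 isUnit4_dir unit_cases)
open Pool.Agent.Q1.M4 (Cell Reg Om rect IsSide nextSide tail head PType mem_Om)
open Pool.Agent.H33.Q1 (lt tt ct TL LY tv mem_TL mem_LY ct_eq)
open Pool.Agent.H21.FM
open Pool.Agent.H5.FM (T0 OnS)
open Pool.Agent.H57.FM (ps)

/-- the integer grid -/
abbrev gz : ℤ → ℝ := fun i : ℤ => (i : ℝ)

lemma gz_mono : StrictMono gz := fun a b h => by
  have : (a : ℝ) < (b : ℝ) := by exact_mod_cast h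
  exact this

/-- cell coordinates of a vertex -/
noncomputable def cc (h : ℕ) (w : ℤ × ℤ) : ℂ :=
  ⟨((tv w).1 : ℝ) / (2 * (h : ℝ)), ((tv w).2 : ℝ) / (2 * (h : ℝ))⟩

lemma odd_add {u v : ℤ × ℤ} (h : IsUnit4 (v - u)) : ((u + v).1 + (u + v).2) % 2 = 1 := by
  rcases unit_cases h with ⟨a, b⟩ | ⟨a, b⟩ | ⟨a, b⟩ | ⟨a, b⟩ <;>
    simp only [Prod.fst_add, Prod.snd_add] <;> omega

/-- end points of an edge and its tile -/
lemma tt_edge {u v : ℤ × ℤ} (h : IsUnit4 (v - u)) :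
    ((tt (u + v)).1 ≤ (tv u).1 ∧ (tv u).1 ≤ (tt (u + v)).1 + 1) ∧
    ((tt (u + v)).2 ≤ (tv u).2 ∧ (tv u).2 ≤ (tt (u + v)).2 + 1) ∧
    (tv u).1 + (tv v).1 = 2 * (tt (u + v)).1 + 1 ∧ (tv u).2 + (tv v).2 = 2 * (tt (u + v)).2 + 1 := by
  unfold tt tv
  rcases unit_cases h with ⟨a, b⟩ | ⟨a, b⟩ | ⟨a, b⟩ | ⟨a, b⟩ <;>
    simp only [Prod.fst_add, Prod.snd_add] <;> omega

lemma div_mem {h : ℕ} (hh : 0 < h) {a k : ℤ} (h1 : k * (2 * (h : ℤ)) ≤ a)
    (h2 : a ≤ k * (2 * (h : ℤ)) + 2 * (h : ℤ)) :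
    (k : ℝ) ≤ (a : ℝ) / (2 * (h : ℝ)) ∧ (a : ℝ) / (2 * (h : ℝ)) ≤ ((k + 1 : ℤ) : ℝ) := by
  have hR : (0 : ℝ) < 2 * (h : ℝ) := by positivity
  have e1 : (k : ℝ) * (2 * (h : ℝ)) ≤ a := by exact_mod_cast h1
  have e2 : (a : ℝ) ≤ k * (2 * (h : ℝ)) + 2 * (h : ℝ) := by exact_mod_cast h2
  constructor
  · rw [le_div_iff₀ hR]; exact e1
  · rw [div_le_iff₀ hR]; push_cast; linarith

lemma of_div {h : ℕ} (hh : 0 < h) {a k : ℤ} : ((k : ℝ) ≤ (a : ℝ) / (2 * (h : ℝ)) → 2 * h * k ≤ a) ∧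
    ((a : ℝ) / (2 * (h : ℝ)) ≤ k → a ≤ 2 * h * k) ∧
    ((a : ℝ) / (2 * (h : ℝ)) = k → a = 2 * h * k) := by
  have hR : (0 : ℝ) < 2 * (h : ℝ) := by positivity
  refine ⟨fun h1 => ?_, fun h1 => ?_, fun h1 => ?_⟩
  · rw [le_div_iff₀ hR] at h1
    have : ((2 * h * k : ℤ) : ℝ) ≤ a := by push_cast; linarith
    exact_mod_cast this
  · rw [div_le_iff₀ hR] at h1
    have : (a : ℝ) ≤ ((2 * h * k : ℤ) : ℝ) := by push_cast; linarith
    exact_mod_cast this
  · rw [div_eq_iff hR.ne'] at h1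
    have : (a : ℝ) = ((2 * h * k : ℤ) : ℝ) := by push_cast; linarith
    exact_mod_cast this

/-- the end points of an edge are in the closed cell of its tile -/
lemma edge_rect {h : ℕ} (hh : 0 < h) {u v : ℤ × ℤ} (hu : IsUnit4 (v - u)) :
    cc h u ∈ rect gz gz (ct (2 * h) (tt (u + v))) := by
  have hn : (0 : ℤ) < 2 * (h : ℤ) := by positivity
  obtain ⟨⟨h1, h2⟩, ⟨h3, h4⟩, -, -⟩ := tt_edge hu
  obtain ⟨⟨a1, a2⟩, b1, b2⟩ := (ct_eq hn (p := tt (u + v)) (c := ct (2 * h) (tt (u + v)))).1 rfl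
  refine ⟨?_, ?_⟩
  · exact div_mem hh (by omega) (by omega)
  · exact div_mem hh (by omega) (by omega)

lemma edge_rect' {h : ℕ} (hh : 0 < h) {u v : ℤ × ℤ} (hu : IsUnit4 (v - u)) :
    cc h v ∈ rect gz gz (ct (2 * h) (tt (u + v))) := by
  have h1 := Pool.Agent.H75.Perc.isUnit4_neg hu
  rw [neg_sub] at h1
  rw [add_comm]
  exact edge_rect hh h1

/-- an edge with an end point in the open polygon is an edge of the polygon -/
lemma mem_TL_of_Om {Q : Finset Cell} {h : ℕ} (hh : 0 < h) {u v : ℤ × ℤ} (hu : IsUnit4 (v - u))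
    (hO : cc h u ∈ Om Q gz gz) : u + v ∈ TL Q (2 * h) := by
  have hn : (0 : ℤ) < 2 * (h : ℤ) := by positivity
  rw [mem_TL hn]
  exact ⟨odd_add hu, ((mem_Om gz_mono gz_mono).1 hO).2 _ (edge_rect hh hu)⟩

/-- end points of the edges of the polygon -/
lemma reg_of_TL {Q : Finset Cell} {h : ℕ} (hh : 0 < h) {u v : ℤ × ℤ} (hu : IsUnit4 (v - u))
    (hO : u + v ∈ TL Q (2 * h)) : cc h u ∈ Reg Q gz gz ∧ cc h v ∈ Reg Q gz gz := by
  have hn : (0 : ℤ) < 2 * (h : ℤ) := by positivity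
  rw [mem_TL hn] at hO
  exact ⟨⟨_, hO.2, edge_rect hh hu⟩, ⟨_, hO.2, edge_rect' hh hu⟩⟩

/-- A wall vertex. -/
lemma wv_of_onS {h : ℕ} (hh : 0 < h) {s : Cell × ℤ} {w : ℤ × ℤ} (hs : OnS 1 s (cc h w)) :
    ∃ j ≤ h, w = wv h s j := by
  have hz : (0 : ℤ) < h := by exact_mod_cast hh
  have key : ∀ a : ℤ, 0 ≤ a → a ≤ 2 * h → a % 2 = 0 → ∃ j : ℕ, j ≤ h ∧ a = 2 * j := by
    intro a h1 h2 h3
    exact ⟨(a / 2).toNat, by omega, by omega⟩
  have hpar := tv_parity w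
  have ediv : ∀ k : ℤ, (2 * (h : ℤ) * k) % 2 = 0 := by intro k; rw [mul_assoc]; omega
  unfold OnS cc at hs
  simp only [one_mul] at hs
  rcases hs with ⟨a, e1, e2, e3⟩ | ⟨a, e1, e2, e3⟩ | ⟨a, e1, e2, e3⟩ | ⟨a, e1, e2, e3⟩
  · have g1 := (of_div hh).2.2 e1
    have g2 := (of_div hh).1 e2
    have g3 := (of_div hh (k := s.1.1 + 1)).2.1 (by push_cast; exact e3)
    have p1 := ediv s.1.1
    have p2 := ediv s.1.2
    obtain ⟨j, hj, hj2⟩ := key ((tv w).1 - 2 * h * s.1.1) (by linarith) (by linarith) (by omega)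
    refine ⟨j, hj, tv_inj ?_⟩
    rcases pos_wv hh s j hj with ⟨b, f⟩ | ⟨b, f⟩ | ⟨b, f⟩ | ⟨b, f⟩
    · rw [f]; exact Prod.ext (by simp only; linarith) (by simp only; linarith)
    all_goals exact absurd b (by omega)
  · have g1 := (of_div hh (k := s.1.1 + 1)).2.2 (by push_cast; exact e1)
    have g2 := (of_div hh).1 e2
    have g3 := (of_div hh (k := s.1.2 + 1)).2.1 (by push_cast; exact e3)
    have p1 := ediv (s.1.1 + 1)
    have p2 := ediv s.1.2
    obtain ⟨j, hj, hj2⟩ := key ((tv w).2 - 2 * h * s.1.2) (by linarith) (by linarith) (by omega)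
    refine ⟨j, hj, tv_inj ?_⟩
    rcases pos_wv hh s j hj with ⟨b, f⟩ | ⟨b, f⟩ | ⟨b, f⟩ | ⟨b, f⟩
    · exact absurd b (by omega)
    · rw [f]; exact Prod.ext (by simp only; linarith) (by simp only; linarith)
    all_goals exact absurd b (by omega)
  · have g1 := (of_div hh (k := s.1.2 + 1)).2.2 (by push_cast; exact e1)
    have g2 := (of_div hh).1 e2
    have g3 := (of_div hh (k := s.1.1 + 1)).2.1 (by push_cast; exact e3)
    have p1 := ediv (s.1.1 + 1)
    have p2 := ediv (s.1.2 + 1)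
    obtain ⟨j, hj, hj2⟩ := key (2 * h * (s.1.1 + 1) - (tv w).1) (by linarith) (by linarith)
      (by omega)
    refine ⟨j, hj, tv_inj ?_⟩
    rcases pos_wv hh s j hj with ⟨b, f⟩ | ⟨b, f⟩ | ⟨b, f⟩ | ⟨b, f⟩
    · exact absurd b (by omega)
    · exact absurd b (by omega)
    · rw [f]; exact Prod.ext (by simp only; linarith) (by simp only; linarith)
    · exact absurd b (by omega)
  · have g1 := (of_div hh).2.2 e1
    have g2 := (of_div hh).1 e2
    have g3 := (of_div hh (k := s.1.2 + 1)).2.1 (by push_cast; exact e3)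
    have p1 := ediv s.1.1
    have p2 := ediv (s.1.2 + 1)
    obtain ⟨j, hj, hj2⟩ := key (2 * h * (s.1.2 + 1) - (tv w).2) (by linarith) (by linarith)
      (by omega)
    refine ⟨j, hj, tv_inj ?_⟩
    rcases pos_wv hh s j hj with ⟨b, f⟩ | ⟨b, f⟩ | ⟨b, f⟩ | ⟨b, f⟩
    · exact absurd b (by omega)
    · exact absurd b (by omega)
    · exact absurd b (by omega)
    · rw [f]; exact Prod.ext (by simp only; linarith) (by simp only; linarith)

/-- A point of the closed polygon which is not in the open polygon is on a side. -/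
lemma onS_of_not_Om (P : PType) {z : ℂ} (h1 : z ∈ Reg P.Q gz gz) (h2 : z ∉ Om P.Q gz gz) :
    ∃ n < P.N, OnS 1 (P.side n) z := by
  have hf : z ∈ frontier (Om P.Q gz gz) := by
    rw [Pool.Agent.Q1.M4.frontier_Om gz_mono gz_mono]
    exact ⟨h1, h2⟩
  obtain ⟨n, hn, t, ⟨t0, t1⟩, rfl⟩ := P.frontier_cover gz_mono gz_mono hf
  refine ⟨n, hn, ?_⟩
  unfold Pool.Agent.Q1.M4.PType.sidePt
  rw [P.vert_head]
  unfold Pool.Agent.Q1.M4.PType.vert head OnS Pool.Agent.Q1.M4.pt gz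
  rcases dir_cases (P.side n).2 with ⟨a, e⟩ | ⟨a, e⟩ | ⟨a, e⟩ | ⟨a, e⟩ <;> rw [e]
  · left
    rw [tail0 a]
    refine ⟨a, ?_, ?_, ?_⟩ <;> simp <;> linarith
  · right; left
    rw [tail1 a]
    refine ⟨a, ?_, ?_, ?_⟩ <;> simp <;> linarith
  · right; right; left
    rw [tail2 a]
    refine ⟨a, ?_, ?_, ?_⟩ <;> simp <;> linarith
  · right; right; right
    rw [tail3 a]
    refine ⟨a, ?_, ?_, ?_⟩ <;> simp <;> linarith

/-! ### Connections in the wired layer -/

lemma co_layer_step {h : ℕ} (hh : 0 < h) (s : Cell × ℤ) {j : ℕ} (hj : j < h) :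
    Co (LY (2 * h) s) (wv h s j) (wv h s (j + 1)) := by
  have h1 := ly_out hh s hj
  have h2 := ly_out' hh s (j := j + 1) (by omega) hj
  have e1 : wv h s (j + 1) = wv h s j + dir s.2 + dir (s.2 + 1) := wv_succ h s j
  have e2 : dir (s.2 - 1) = -dir (s.2 + 1) := by
    rcases dir_cases (s.2 - 1) with ⟨a, e⟩ | ⟨a, e⟩ | ⟨a, e⟩ | ⟨a, e⟩ <;>
    rcases dir_cases (s.2 + 1) with ⟨b, f⟩ | ⟨b, f⟩ | ⟨b, f⟩ | ⟨b, f⟩ <;>
    first | (exfalso; omega) | (rw [e, f]; rfl)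
  have a1 : Ad (LY (2 * h) s) (wv h s j) (wv h s j + dir s.2) := by
    refine ⟨by rw [add_sub_cancel_left]; exact isUnit4_dir _, ?_⟩
    unfold ql at h1
    rw [← add_assoc]
    exact h1
  have a2 : Ad (LY (2 * h) s) (wv h s j + dir s.2) (wv h s (j + 1)) := by
    refine ⟨by rw [e1, add_sub_cancel_left]; exact isUnit4_dir _, ?_⟩
    unfold ql at h2
    rw [e2, e1] at h2
    rw [e1]
    convert h2 using 1
    abel
  exact (Relation.ReflTransGen.single a1).tail a2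

lemma co_layer {h : ℕ} (hh : 0 < h) (s : Cell × ℤ) {j : ℕ} (hj : j ≤ h) :
    Co (LY (2 * h) s) (wv h s 0) (wv h s j) := by
  induction j with
  | zero => exact Co.refl _ _
  | succ j ih => exact (ih (by omega)).trans (co_layer_step hh s (by omega))

variable {S : Shape}

lemma LY_sub_W0 {h i : ℕ} (hi : S.Wd i) : LY (2 * h) (S.P.side i) ⊆ W0 S h := by
  unfold W0
  intro e he
  rw [mem_biUnion]
  refine ⟨i, ?_, he⟩
  rw [mem_union, mem_Ico, mem_Ico]
  exact hi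

/-- the vertices of the arc II are connected in the wired layer -/
lemma co_two {h : ℕ} (hh : 0 < h) {i j : ℕ} (h2 : S.m2 ≤ i) (h3 : i < S.m3) (hj : j ≤ h) :
    Co (W0 S h) (v3 S h) (wv h (S.P.side i) j) := by
  have key : ∀ d : ℕ, d + S.m2 ≤ S.m3 → ∀ i, i + d = S.m3 → 
      Co (W0 S h) (v3 S h) (wv h (S.P.side i) 0) := by
    intro d
    induction d with
    | zero =>
      intro _ i hi
      have : i = S.m3 := by omega
      rw [this]
      exact Co.refl _ _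
    | succ d ih =>
      intro hd i hi
      have h1 := ih (by omega) (i + 1) (by omega)
      have hW : S.Wd i := Or.inl ⟨by omega, by omega⟩
      have h4 := (co_layer hh (S.P.side i) le_rfl).mono (LY_sub_W0 hW)
      rw [wv_last h S.P.Q, ← Pool.Agent.Q1.M4.PType.side_next] at h4
      exact h1.trans h4.symm
  have hW : S.Wd i := Or.inl ⟨h2, h3⟩
  exact (key (S.m3 - i) (by omega) i (by omega)).trans
    ((co_layer hh (S.P.side i) hj).mono (LY_sub_W0 hW))

/-- the vertices of the arc IV are connected in the wired layer -/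
lemma co_four {h : ℕ} (hh : 0 < h) {i j : ℕ} (h2 : S.m4 ≤ i) (h3 : i < S.N) (hj : j ≤ h) :
    Co (W0 S h) (v1 S h) (wv h (S.P.side i) j) := by
  have key : ∀ d : ℕ, d + S.m4 ≤ S.N → ∀ i, i + d = S.N → 
      Co (W0 S h) (v1 S h) (wv h (S.P.side i) 0) := by
    intro d
    induction d with
    | zero =>
      intro _ i hi
      have : i = S.N := by omega
      rw [this, wv_side_N]
      exact Co.refl _ _
    | succ d ih =>
      intro hd i hi
      have h1 := ih (by omega) (i + 1) (by omega)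
      have hW : S.Wd i := Or.inr ⟨by omega, by omega⟩
      have h4 := (co_layer hh (S.P.side i) le_rfl).mono (LY_sub_W0 hW)
      rw [wv_last h S.P.Q, ← Pool.Agent.Q1.M4.PType.side_next] at h4
      exact h1.trans h4.symm
  have hW : S.Wd i := Or.inr ⟨h2, h3⟩
  exact (key (S.N - i) (by omega) i (by omega)).trans
    ((co_layer hh (S.P.side i) hj).mono (LY_sub_W0 hW))

/-- An edge of the outer layer of a side has an end point on the side. -/
lemma layer_edge {h : ℕ} (hh : 0 < h) {s : Cell × ℤ} {u v : ℤ × ℤ} (hu : IsUnit4 (v - u))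
    (he : u + v ∈ LY (2 * h) s) : OnS 1 s (cc h u) ∨ OnS 1 s (cc h v) := by
  have hn : (0 : ℤ) < 2 * (h : ℤ) := by positivity
  have hR : (0 : ℝ) < 2 * (h : ℝ) := by positivity
  rw [mem_LY hn] at he
  obtain ⟨-, e1, e2⟩ := he
  rw [ct_eq hn] at e1 e2
  obtain ⟨⟨a1, a2⟩, a3, a4⟩ := e1
  obtain ⟨⟨b1, b2⟩, b3, b4⟩ := e2
  obtain ⟨⟨h1, h2⟩, ⟨h3, h4⟩, h5, h6⟩ := tt_edge hu
  have key : ∀ {a k : ℤ}, k * (2 * (h : ℤ)) ≤ a → a ≤ k * (2 * (h : ℤ)) + 2 * (h : ℤ) →
      (k : ℝ) ≤ (a : ℝ) / (2 * (h : ℝ)) ∧ (a : ℝ) / (2 * (h : ℝ)) ≤ (k : ℝ) + 1 := by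
    intro a k g1 g2
    have := div_mem hh g1 g2
    push_cast at this
    exact this
  have key2 : ∀ {a k : ℤ}, a = k * (2 * (h : ℤ)) → (a : ℝ) / (2 * (h : ℝ)) = k := by
    intro a k g
    rw [div_eq_iff hR.ne']
    exact_mod_cast g
  unfold OnS cc
  simp only [one_mul]
  rcases dir_cases (s.2 - 1) with ⟨b, f⟩ | ⟨b, f⟩ | ⟨b, f⟩ | ⟨b, f⟩ <;> rw [f] at a1 a2 a3 a4 b1 b2 b3 b4 <;>
    simp only [Prod.fst_add, Prod.snd_add, Prod.fst_sub, Prod.snd_sub, add_zero, sub_zero] at a1 a2 a3 a4 b1 b2 b3 b4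
  · -- direction 1
    have ek : (s.1.1 + 1) * (2 * (h : ℤ)) = s.1.1 * (2 * (h : ℤ)) + 2 * (h : ℤ) := by ring
    have e : (tt (u + v)).1 = (s.1.1 + 1) * (2 * (h : ℤ)) := by omega
    have hc : (tv u).1 = (s.1.1 + 1) * (2 * (h : ℤ)) ∨ (tv v).1 = (s.1.1 + 1) * (2 * (h : ℤ)) := by
      omega
    rcases hc with hc | hc
    · left; right; left
      refine ⟨by omega, ?_, (key (by omega) (by omega)).1, (key (by omega) (by omega)).2⟩
      rw [key2 hc]; push_cast; ring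
    · right; right; left
      refine ⟨by omega, ?_, (key (by omega) (by omega)).1, (key (by omega) (by omega)).2⟩
      rw [key2 hc]; push_cast; ring
  · have ek : (s.1.2 + 1) * (2 * (h : ℤ)) = s.1.2 * (2 * (h : ℤ)) + 2 * (h : ℤ) := by ring
    have e : (tt (u + v)).2 = (s.1.2 + 1) * (2 * (h : ℤ)) := by omega
    have hc : (tv u).2 = (s.1.2 + 1) * (2 * (h : ℤ)) ∨ (tv v).2 = (s.1.2 + 1) * (2 * (h : ℤ)) := by
      omega
    rcases hc with hc | hc
    · left; right; right; left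
      refine ⟨by omega, ?_, (key (by omega) (by omega)).1, (key (by omega) (by omega)).2⟩
      rw [key2 hc]; push_cast; ring
    · right; right; right; left
      refine ⟨by omega, ?_, (key (by omega) (by omega)).1, (key (by omega) (by omega)).2⟩
      rw [key2 hc]; push_cast; ring
  · have ek : (s.1.1 + -1) * (2 * (h : ℤ)) = s.1.1 * (2 * (h : ℤ)) - 2 * (h : ℤ) := by ring
    have e : (tt (u + v)).1 + 1 = s.1.1 * (2 * (h : ℤ)) := by omega
    have hc : (tv u).1 = s.1.1 * (2 * (h : ℤ)) ∨ (tv v).1 = s.1.1 * (2 * (h : ℤ)) := by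
      omega
    rcases hc with hc | hc
    · left; right; right; right
      exact ⟨by omega, key2 hc, (key (by omega) (by omega)).1, (key (by omega) (by omega)).2⟩
    · right; right; right; right
      exact ⟨by omega, key2 hc, (key (by omega) (by omega)).1, (key (by omega) (by omega)).2⟩
  · have ek : (s.1.2 + -1) * (2 * (h : ℤ)) = s.1.2 * (2 * (h : ℤ)) - 2 * (h : ℤ) := by ring
    have e : (tt (u + v)).2 + 1 = s.1.2 * (2 * (h : ℤ)) := by omega
    have hc : (tv u).2 = s.1.2 * (2 * (h : ℤ)) ∨ (tv v).2 = s.1.2 * (2 * (h : ℤ)) := by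
      omega
    rcases hc with hc | hc
    · left; left
      exact ⟨by omega, key2 hc, (key (by omega) (by omega)).1, (key (by omega) (by omega)).2⟩
    · right; left
      exact ⟨by omega, key2 hc, (key (by omega) (by omega)).1, (key (by omega) (by omega)).2⟩

end Pool.Agent.H79.FM
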