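import Mathlib
import Pool.Agent.H79.FM.Inc1

set_option autoImplicit false
open Finset

/-! # Inclusion of crossing events, II: the deterministic inclusions

`up_det`: a crossing of the domain gives a connection between the wired arcs of the shape (`UpG`).
`lo_det`: a connection between the wired arcs of the shape gives a crossing of the domain (`LoG`). -/

namespace Pool.Agent.H79.FM

open Pool.Agent.H75.Perc (dir dir_cases Co Ad IsUnit4 isUnit4_dir unit_cases syT isUnit4_neg)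
open Pool.Agent.Q1.M4 (Cell Reg Om rect IsSide nextSide tail head PType mem_Om)
open Pool.Agent.H33.Q1 (lt tt ct TL LY tv mem_TL mem_LY ct_eq)
open Pool.Agent.H21.FM
open Pool.Agent.H5.FM (T0 OnS UpG LoG)
open Pool.Agent.H57.FM (ps Cross PC EL)

lemma ps_add (δ : ℝ) (u v : ℤ × ℤ) : ps δ (u + v) = ps δ u + ps δ v := by
  unfold ps
  simp only [Prod.fst_add, Prod.snd_add]
  push_cast
  ring

lemma norm_ps_unit {δ : ℝ} (hδ : 0 ≤ δ) {u v : ℤ × ℤ} (h : IsUnit4 (v - u)) :
    ‖ps δ u - ps δ v‖ ≤ δ := by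
  have e : ps δ v = ps δ u + ps δ (v - u) := by rw [← ps_add]; congr 1; abel
  rw [e, sub_add_cancel_left, norm_neg]
  unfold ps
  rw [norm_mul, Complex.norm_real, Real.norm_of_nonneg hδ]
  rcases h with h | h | h | h <;> rw [h] <;> simp

lemma side_kind (S : Shape) {i : ℕ} (hi : i < S.N) :
    S.Fr i ∨ (S.m2 ≤ i ∧ i < S.m3) ∨ (S.m4 ≤ i ∧ i < S.N) := by
  unfold Shape.Fr
  omega

lemma ad_shift (t : ℤ × ℤ) (ω : Finset (ℤ × ℤ)) (x y : ℤ × ℤ) :
    Ad (ω.map (syT t).G) x y ↔ Ad ω (x - t) (y - t) := by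
  have h := (syT t).ad_iff ω (x - t) (y - t)
  change Ad _ (x - t + t) (y - t + t) ↔ _ at h
  rwa [sub_add_cancel, sub_add_cancel] at h

section up

variable {S : Shape} {e : ℝ} {z1 : ℂ} {D A B N2 N4 : Set ℂ} {ρ : ℝ}

theorem up_det (H : UpG S e z1 D A B ρ N2 N4) {h : ℕ} (hh : 0 < h) {δ η : ℝ} (hδ : 0 < δ)
    (t : ℤ × ℤ) (hη : 2 * η + 4 * δ < ρ)
    (hcl : ∀ w, ps δ (w + t) ∈ D → ‖T0 e z1 (cc h w) - ps δ (w + t)‖ ≤ η)
    {ω : Finset (ℤ × ℤ)} (hC : Cross D A B δ (ω.map (syT t).G)) : TT S h (ω ∩ EE S h) := by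
  obtain ⟨u, v, hu, ⟨a, ha, hua⟩, ⟨b, hb, hvb⟩, hp⟩ := hC
  have close : ∀ x, ps δ x ∈ D → ‖T0 e z1 (cc h (x - t)) - ps δ x‖ ≤ η := by
    intro x hx
    have := hcl (x - t)
    rw [sub_add_cancel] at this
    exact this hx
  have hη0 : 0 ≤ η := (norm_nonneg _).trans (close u hu)
  have near : ∀ x y, ps δ x ∈ D → ps δ y ∈ D → IsUnit4 (y - x) →
      ‖T0 e z1 (cc h (x - t)) - T0 e z1 (cc h (y - t))‖ < ρ := by
    intro x y hx hy hxy
    have h1 := close x hx
    have h2 := close y hy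
    have h3 := norm_ps_unit hδ.le hxy
    have e1 : T0 e z1 (cc h (x - t)) - T0 e z1 (cc h (y - t)) =
        (T0 e z1 (cc h (x - t)) - ps δ x) + (ps δ x - ps δ y) -
        (T0 e z1 (cc h (y - t)) - ps δ y) := by ring
    rw [e1]
    refine (norm_sub_le _ _).trans_lt ?_
    have := norm_add_le (T0 e z1 (cc h (x - t)) - ps δ x) (ps δ x - ps δ y)
    linarith
  have cov : ∀ x, ps δ x ∈ D → cc h (x - t) ∉ Om S.P.Q gz gz →
      T0 e z1 (cc h (x - t)) ∈ N2 ∨ T0 e z1 (cc h (x - t)) ∈ N4 := by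
    intro x hx hO
    exact H.cov _ _ hx (lt_of_le_of_lt (close x hx) (by linarith)) hO
  have nsep : ∀ z ∈ N2, ∀ w ∈ N4, ‖z - w‖ < ρ → False := fun z hz w hw hlt =>
    absurd (H.sep z hz w hw) (not_le.2 hlt)
  -- wall vertices of the domain
  have wall : ∀ x, ps δ x ∈ D → cc h (x - t) ∈ Reg S.P.Q gz gz →
      cc h (x - t) ∉ Om S.P.Q gz gz →
      (T0 e z1 (cc h (x - t)) ∈ N2 → Co (W0 S h) (v3 S h) (x - t)) ∧
      (T0 e z1 (cc h (x - t)) ∈ N4 → Co (W0 S h) (v1 S h) (x - t)) := by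
    intro x hx hR hO
    obtain ⟨i, hi, hon⟩ := onS_of_not_Om S.P hR hO
    obtain ⟨j, hj, hw⟩ := wv_of_onS hh hon
    rcases side_kind S hi with hF | hF | hF
    · exfalso
      have h1 := H.free i hF _ hon _ hx
      have h2 := close x hx
      linarith
    · have h2 := H.two i hF.1 hF.2 _ hon
      refine ⟨fun _ => ?_, fun h4 => (nsep _ h2 _ h4 (by rw [sub_self, norm_zero]; exact H.ρ0)).elim⟩
      rw [hw]
      exact co_two hh hF.1 hF.2 hj
    · have h4 := H.four i hF.1 hF.2 _ hon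
      refine ⟨fun h2 => (nsep _ h2 _ h4 (by rw [sub_self, norm_zero]; exact H.ρ0)).elim,
        fun _ => ?_⟩
      rw [hw]
      exact co_four hh hF.1 hF.2 hj
  have key : ps δ v ∈ D ∧ (TT S h (ω ∩ EE S h) ∨
      (cc h (v - t) ∉ Om S.P.Q gz gz ∧ T0 e z1 (cc h (v - t)) ∈ N2) ∨
      (cc h (v - t) ∈ Om S.P.Q gz gz ∧ Co (ω ∩ EE S h ∪ W0 S h) (v3 S h) (v - t))) := by
    clear hvb
    induction hp with
    | refl =>
      refine ⟨hu, Or.inr (Or.inl ?_)⟩
      have h1 : ‖T0 e z1 (cc h (u - t)) - a‖ < ρ := by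
        have h2 := close u hu
        rw [dist_eq_norm] at hua
        have e1 : T0 e z1 (cc h (u - t)) - a =
          (T0 e z1 (cc h (u - t)) - ps δ u) + (ps δ u - a) := by ring
        rw [e1]
        exact (norm_add_le _ _).trans_lt (by linarith)
      have h3 : cc h (u - t) ∉ Om S.P.Q gz gz := fun hO =>
        absurd (H.Ar a ha _ (Pool.Agent.Q1.M4.Om_subset _ _ _ hO)) (not_le.2 h1)
      refine ⟨h3, ?_⟩
      rcases cov u hu h3 with h4 | h4
      · exact h4
      · exfalso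
        refine nsep a (H.A2 ha) _ h4 ?_
        rw [norm_sub_rev]; exact h1
    | @tail x y _ hxy ih =>
      obtain ⟨hx, ih⟩ := ih
      have hy := hxy.2
      refine ⟨hy, ?_⟩
      have hun : IsUnit4 (y - x) := hxy.1.1
      have had := (ad_shift t ω x y).1 hxy.1
      have hne := near x y hx hy hun
      rcases ih with ih | ⟨ih1, ih2⟩ | ⟨ih1, ih2⟩
      · exact Or.inl ih
      · by_cases hO : cc h (y - t) ∈ Om S.P.Q gz gz
        · refine Or.inr (Or.inr ⟨hO, ?_⟩)
          have hTL : (y - t) + (x - t) ∈ TL S.P.Q (2 * h) := mem_TL_of_Om hh had.symm.1 hO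
          have hR := (reg_of_TL hh had.symm.1 hTL).2
          have h1 := (wall x hx hR ih1).1 ih2
          refine (h1.mono subset_union_right).tail ⟨had.1, ?_⟩
          rw [mem_union, mem_inter]
          left
          refine ⟨had.2, ?_⟩
          rw [add_comm]
          exact hTL
        · refine Or.inr (Or.inl ⟨hO, ?_⟩)
          rcases cov y hy hO with h4 | h4
          · exact h4
          · exact (nsep _ ih2 _ h4 hne).elim
      · have hTL : (x - t) + (y - t) ∈ TL S.P.Q (2 * h) := mem_TL_of_Om hh had.1 ih1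
        have hco : Co (ω ∩ EE S h ∪ W0 S h) (v3 S h) (y - t) := by
          refine ih2.tail ⟨had.1, ?_⟩
          rw [mem_union, mem_inter]
          exact Or.inl ⟨had.2, hTL⟩
        by_cases hO : cc h (y - t) ∈ Om S.P.Q gz gz
        · exact Or.inr (Or.inr ⟨hO, hco⟩)
        · rcases cov y hy hO with h4 | h4
          · exact Or.inr (Or.inl ⟨hO, h4⟩)
          · left
            have hR := (reg_of_TL hh had.1 hTL).2
            have h1 := (wall y hy hR hO).2 h4
            exact hco.trans (h1.mono subset_union_right).symm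
  obtain ⟨hv, key⟩ := key
  have h1 : ‖T0 e z1 (cc h (v - t)) - b‖ < ρ := by
    have h2 := close v hv
    rw [dist_eq_norm] at hvb
    have e1 : T0 e z1 (cc h (v - t)) - b =
      (T0 e z1 (cc h (v - t)) - ps δ v) + (ps δ v - b) := by ring
    rw [e1]
    exact (norm_add_le _ _).trans_lt (by linarith)
  rcases key with key | ⟨-, key⟩ | ⟨key, -⟩
  · exact key
  · exact (nsep _ key b (H.B4 hb) h1).elim
  · exact absurd (H.Br b hb _ (Pool.Agent.Q1.M4.Om_subset _ _ _ key)) (not_le.2 h1)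

end up

/-- wall vertices are on their side -/
lemma onS_wv {h : ℕ} (hh : 0 < h) (s : Cell × ℤ) {j : ℕ} (hj : j ≤ h) :
    OnS 1 s (cc h (wv h s j)) := by
  have hn : (0 : ℤ) < 2 * (h : ℤ) := by positivity
  have hR : (0 : ℝ) < 2 * (h : ℝ) := by positivity
  have hR' : (h : ℝ) ≠ 0 := by positivity
  have hjr : (j : ℝ) ≤ h := by exact_mod_cast hj
  have hj0 : (0 : ℝ) ≤ j := by positivity
  unfold OnS cc
  simp only [one_mul]
  rcases pos_wv hh s j hj with ⟨b, f⟩ | ⟨b, f⟩ | ⟨b, f⟩ | ⟨b, f⟩ <;> rw [f]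
  · left
    refine ⟨b, ?_, ?_, ?_⟩ <;> push_cast
    · rw [div_eq_iff hR.ne']; ring
    · rw [le_div_iff₀ hR]; linarith
    · rw [div_le_iff₀ hR]; linarith
  · right; left
    refine ⟨b, ?_, ?_, ?_⟩ <;> push_cast
    · rw [div_eq_iff hR.ne']; ring
    · rw [le_div_iff₀ hR]; linarith
    · rw [div_le_iff₀ hR]; linarith
  · right; right; left
    refine ⟨b, ?_, ?_, ?_⟩ <;> push_cast
    · rw [div_eq_iff hR.ne']; ring
    · rw [le_div_iff₀ hR]; linarith
    · rw [div_le_iff₀ hR]; linarith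
  · right; right; right
    refine ⟨b, ?_, ?_, ?_⟩ <;> push_cast
    · rw [div_eq_iff hR.ne']; ring
    · rw [le_div_iff₀ hR]; linarith
    · rw [div_le_iff₀ hR]; linarith

lemma reg_of_onS {Q : Finset Cell} {s : Cell × ℤ} (hs : IsSide Q s) {z : ℂ} (hz : OnS 1 s z) :
    z ∈ Reg Q gz gz := by
  refine ⟨s.1, hs.1, ?_⟩
  unfold OnS at hz
  simp only [one_mul] at hz
  unfold rect gz
  simp only [Set.mem_ofPred_eq]
  push_cast
  rcases hz with ⟨-, e1, e2, e3⟩ | ⟨-, e1, e2, e3⟩ | ⟨-, e1, e2, e3⟩ | ⟨-, e1, e2, e3⟩ <;>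
    refine ⟨⟨?_, ?_⟩, ?_, ?_⟩ <;> linarith

/-- a segment from the complement of a set to the set meets its frontier -/
lemma exists_frontier {D : Set ℂ} {x y : ℂ} (hx : x ∉ D) (hy : y ∈ D) :
    ∃ p ∈ frontier D, ‖p - x‖ ≤ ‖x - y‖ ∧ ‖p - y‖ ≤ ‖x - y‖ := by
  obtain ⟨p, hp, hpf⟩ : ∃ p ∈ segment ℝ x y, p ∈ frontier D := by
    by_contra hcon
    push Not at hcon
    have hsub : segment ℝ x y ⊆ interior D ∪ (closure D)ᶜ := by
      intro p hp
      have h1 := hcon p hp
      rw [frontier, Set.mem_sdiff] at h1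
      by_cases h2 : p ∈ closure D
      · left
        by_contra h3
        exact h1 ⟨h2, h3⟩
      · exact Or.inr h2
    have hx' : x ∈ (closure D)ᶜ := by
      rcases hsub (left_mem_segment ℝ x y) with h1 | h1
      · exact absurd (interior_subset h1) hx
      · exact h1
    have hy' : y ∈ interior D := by
      rcases hsub (right_mem_segment ℝ x y) with h1 | h1
      · exact h1
      · exact absurd (subset_closure hy) h1
    obtain ⟨z, -, hz1, hz2⟩ := (convex_segment (𝕜 := ℝ) x y).isPreconnected (interior D)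
      ((closure D)ᶜ) isOpen_interior isClosed_closure.isOpen_compl hsub
      ⟨y, right_mem_segment ℝ x y, hy'⟩ ⟨x, left_mem_segment ℝ x y, hx'⟩
    exact hz2 (subset_closure (interior_subset hz1))
  refine ⟨p, hpf, ?_, ?_⟩
  · have h1 : segment ℝ x y ⊆ Metric.closedBall x ‖x - y‖ := by
      apply (convex_closedBall x _).segment_subset
      · exact Metric.mem_closedBall_self (norm_nonneg _)
      · rw [Metric.mem_closedBall, dist_eq_norm, norm_sub_rev]
    have := h1 hp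
    rwa [Metric.mem_closedBall, dist_eq_norm] at this
  · have h1 : segment ℝ x y ⊆ Metric.closedBall y ‖x - y‖ := by
      apply (convex_closedBall y _).segment_subset
      · rw [Metric.mem_closedBall, dist_eq_norm]
      · exact Metric.mem_closedBall_self (norm_nonneg _)
    have := h1 hp
    rwa [Metric.mem_closedBall, dist_eq_norm] at this

section lo

variable {S : Shape} {e : ℝ} {z1 : ℂ} {D A B N2 N4 : Set ℂ} {ρ : ℝ}

theorem lo_det (H : LoG S e z1 D A B ρ N2 N4) {h : ℕ} (hh : 0 < h) {δ η : ℝ} (hδ : 0 < δ)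
    (hη0 : 0 ≤ η) (t : ℤ × ℤ) (hη : 2 * η + 4 * δ < ρ)
    (hcl : ∀ w, cc h w ∈ Reg S.P.Q gz gz → ‖T0 e z1 (cc h w) - ps δ (w + t)‖ ≤ η)
    {ω : Finset (ℤ × ℤ)} (hω : ω ⊆ EE S h) (hT : TT S h ω) :
    Cross D A B δ (ω.map (syT t).G) := by
  have sep : ∀ z ∈ N2, ∀ w ∈ N4, ‖z - w‖ < ρ → False := fun z hz w hw hlt =>
    absurd (H.sep z hz w hw) (not_le.2 hlt)
  -- vertices of the wired walls
  have w2 : ∀ i, S.m2 ≤ i → i < S.m3 → ∀ w, OnS 1 (S.P.side i) (cc h w) →
      T0 e z1 (cc h w) ∈ N2 ∧ ‖T0 e z1 (cc h w) - ps δ (w + t)‖ ≤ η ∧ ps δ (w + t) ∉ D := by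
    intro i h1 h2 w hw
    have a1 := H.two i h1 h2 _ hw
    have a2 := hcl w (reg_of_onS (S.P.side_isSide i) hw)
    refine ⟨a1.1, a2, fun hD => ?_⟩
    have := a1.2 _ hD
    linarith
  have w4 : ∀ i, S.m4 ≤ i → i < S.N → ∀ w, OnS 1 (S.P.side i) (cc h w) →
      T0 e z1 (cc h w) ∈ N4 ∧ ‖T0 e z1 (cc h w) - ps δ (w + t)‖ ≤ η ∧ ps δ (w + t) ∉ D := by
    intro i h1 h2 w hw
    have a1 := H.four i h1 h2 _ hw
    have a2 := hcl w (reg_of_onS (S.P.side_isSide i) hw)
    refine ⟨a1.1, a2, fun hD => ?_⟩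
    have := a1.2 _ hD
    linarith
  -- an edge of the layer: position of both end points
  have lay : ∀ x y, IsUnit4 (y - x) → x + y ∈ W0 S h →
      (ps δ (x + t) ∉ D ∨ ps δ (y + t) ∉ D) ∧
      ((∃ ζ ∈ N2, ‖ps δ (y + t) - ζ‖ ≤ η + δ) ∨ (∃ ζ ∈ N4, ‖ps δ (y + t) - ζ‖ ≤ η + δ)) := by
    intro x y hxy he
    unfold W0 at he
    rw [mem_biUnion] at he
    obtain ⟨i, hi, he⟩ := he
    rw [mem_union, mem_Ico, mem_Ico] at hi
    have hnn : ‖ps δ (y + t) - ps δ (x + t)‖ ≤ δ := by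
      have h1 : IsUnit4 (x + t - (y + t)) := by
        rw [add_sub_add_right_eq_sub, ← neg_sub]
        exact isUnit4_neg hxy
      exact norm_ps_unit hδ.le h1
    have tr : ∀ ζ, ‖ζ - ps δ (x + t)‖ ≤ η → ‖ps δ (y + t) - ζ‖ ≤ η + δ := by
      intro ζ hζ
      have e1 : ps δ (y + t) - ζ = (ps δ (y + t) - ps δ (x + t)) - (ζ - ps δ (x + t)) := by ring
      rw [e1]
      exact (norm_sub_le _ _).trans (by linarith)
    rcases layer_edge hh hxy he with ho | ho
    · rcases hi with hi | hi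
      · obtain ⟨b1, b2, b3⟩ := w2 i hi.1 hi.2 x ho
        exact ⟨Or.inl b3, Or.inl ⟨_, b1, tr _ b2⟩⟩
      · obtain ⟨b1, b2, b3⟩ := w4 i hi.1 hi.2 x ho
        exact ⟨Or.inl b3, Or.inr ⟨_, b1, tr _ b2⟩⟩
    · rcases hi with hi | hi
      · obtain ⟨b1, b2, b3⟩ := w2 i hi.1 hi.2 y ho
        refine ⟨Or.inr b3, Or.inl ⟨_, b1, ?_⟩⟩
        rw [norm_sub_rev]; linarith
      · obtain ⟨b1, b2, b3⟩ := w4 i hi.1 hi.2 y ho
        refine ⟨Or.inr b3, Or.inr ⟨_, b1, ?_⟩⟩
        rw [norm_sub_rev]; linarith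
  -- classification
  have cls : ∀ x y, Ad (ω ∪ W0 S h) x y → ps δ (y + t) ∈ D ∨
      (∃ ζ ∈ N2, ‖ps δ (y + t) - ζ‖ ≤ η + δ) ∨ (∃ ζ ∈ N4, ‖ps δ (y + t) - ζ‖ ≤ η + δ) := by
    intro x y hxy
    rcases mem_union.1 hxy.2 with h1 | h1
    · have hR := (reg_of_TL hh hxy.1 (hω h1)).2
      have hc := hcl y hR
      rcases H.cov _ hR with h2 | h2 | h2
      · left
        refine h2 _ ?_
        rw [norm_sub_rev]
        linarith
      · right; left
        refine ⟨_, h2, ?_⟩
        rw [norm_sub_rev]; linarith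
      · right; right
        refine ⟨_, h2, ?_⟩
        rw [norm_sub_rev]; linarith
    · exact Or.inr (lay x y hxy.1 h1).2
  set ω' := ω.map (syT t).G with hω'
  have adm : ∀ x y, Ad ω x y → Ad ω' (x + t) (y + t) := by
    intro x y hxy
    rw [hω', ad_shift, add_sub_cancel_right, add_sub_cancel_right]
    exact hxy
  have key : ∀ x, Co (ω ∪ W0 S h) (v3 S h) x → Cross D A B δ ω' ∨
      (ps δ (x + t) ∉ D ∧ ∃ ζ ∈ N2, ‖ps δ (x + t) - ζ‖ ≤ η + δ) ∨
      (ps δ (x + t) ∈ D ∧ ∃ u, ps δ u ∈ D ∧ (∃ a ∈ A, dist (ps δ u) a ≤ δ) ∧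
        Relation.ReflTransGen (fun x y => Ad ω' x y ∧ ps δ y ∈ D) u (x + t)) := by
    intro x hx
    induction hx with
    | refl =>
      right; left
      have e1 : v3 S h = wv h (S.P.side (S.m3 - 1)) h := by
        rw [wv_last h S.P.Q, ← Pool.Agent.Q1.M4.PType.side_next]
        unfold v3
        congr 2
        have := S.h23; omega
      have h1 : OnS 1 (S.P.side (S.m3 - 1)) (cc h (v3 S h)) := by
        rw [e1]; exact onS_wv hh _ le_rfl
      obtain ⟨b1, b2, b3⟩ := w2 (S.m3 - 1) (by have := S.h23; omega) (by have := S.h23; omega) _ h1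
      refine ⟨b3, _, b1, ?_⟩
      rw [norm_sub_rev]; linarith
    | @tail x y _ hxy ih =>
      have hun : IsUnit4 (y + t - (x + t)) := by
        rw [add_sub_add_right_eq_sub]; exact hxy.1
      have hnn : ‖ps δ (x + t) - ps δ (y + t)‖ ≤ δ := norm_ps_unit hδ.le hun
      rcases ih with ih | ⟨ih1, ζ, ih2, ih3⟩ | ⟨ih1, u, ih2, ih3, ih4⟩
      · exact Or.inl ih
      · by_cases hy : ps δ (y + t) ∈ D
        · right; right
          refine ⟨hy, y + t, hy, ?_, Relation.ReflTransGen.refl⟩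
          obtain ⟨p, hp, hp1, hp2⟩ := exists_frontier ih1 hy
          refine ⟨p, H.A2 p hp ζ ih2 ?_, ?_⟩
          · have e1 : p - ζ = (p - ps δ (x + t)) + (ps δ (x + t) - ζ) := by ring
            rw [e1]
            exact (norm_add_le _ _).trans_lt (by linarith)
          · rw [dist_eq_norm, norm_sub_rev]; linarith
        · rcases cls x y hxy with h1 | h1 | ⟨ζ', h1, h2⟩
          · exact absurd h1 hy
          · exact Or.inr (Or.inl ⟨hy, h1⟩)
          · exfalso
            refine sep ζ ih2 ζ' h1 ?_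
            have e1 : ζ - ζ' = -(ps δ (x + t) - ζ) + (ps δ (x + t) - ps δ (y + t)) +
              (ps δ (y + t) - ζ') := by ring
            rw [e1]
            have g1 := norm_add_le (-(ps δ (x + t) - ζ) + (ps δ (x + t) - ps δ (y + t)))
              (ps δ (y + t) - ζ')
            have g2 := norm_add_le (-(ps δ (x + t) - ζ)) (ps δ (x + t) - ps δ (y + t))
            rw [norm_neg] at g2
            linarith
      · by_cases hy : ps δ (y + t) ∈ D
        · right; right
          refine ⟨hy, u, ih2, ih3, ih4.tail ⟨?_, hy⟩⟩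
          apply adm
          refine ⟨hxy.1, ?_⟩
          rcases mem_union.1 hxy.2 with h1 | h1
          · exact h1
          · exfalso
            rcases (lay x y hxy.1 h1).1 with h2 | h2
            · exact h2 ih1
            · exact h2 hy
        · rcases cls x y hxy with h1 | h1 | ⟨ζ', h1, h2⟩
          · exact absurd h1 hy
          · exact Or.inr (Or.inl ⟨hy, h1⟩)
          · left
            obtain ⟨p, hp, hp1, hp2⟩ := exists_frontier hy ih1
            rw [norm_sub_rev (ps δ (y + t)) (ps δ (x + t))] at hp1 hp2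
            refine ⟨u, x + t, ih2, ih3, ⟨p, H.B4 p hp ζ' h1 ?_, ?_⟩, ih4⟩
            · have e1 : p - ζ' = (p - ps δ (y + t)) + (ps δ (y + t) - ζ') := by ring
              rw [e1]
              exact (norm_add_le _ _).trans_lt (by linarith)
            · rw [dist_eq_norm, norm_sub_rev]; linarith
  have e1 : v1 S h = wv h (S.P.side (S.N - 1)) h := by
    rw [wv_last h S.P.Q, ← Pool.Agent.Q1.M4.PType.side_next]
    have : S.N - 1 + 1 = S.N := by have := S.P.hmN; have := S.P.hm0; unfold Shape.N; omega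
    rw [this, wv_side_N]
    rfl
  have h1 : OnS 1 (S.P.side (S.N - 1)) (cc h (v1 S h)) := by
    rw [e1]; exact onS_wv hh _ le_rfl
  obtain ⟨b1, b2, b3⟩ := w4 (S.N - 1) (by have := S.P.hmN; have := S.P.hm0; unfold Shape.N Shape.m4; omega)
    (by have := S.P.hmN; have := S.P.hm0; unfold Shape.N; omega) _ h1
  rcases key _ hT with h2 | ⟨-, ζ, h2, h3⟩ | ⟨h2, -⟩
  · exact h2
  · exfalso
    refine sep ζ h2 _ b1 ?_
    have e2 : ζ - T0 e z1 (cc h (v1 S h)) = -(ps δ (v1 S h + t) - ζ) -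
      (T0 e z1 (cc h (v1 S h)) - ps δ (v1 S h + t)) := by ring
    rw [e2]
    refine (norm_sub_le _ _).trans_lt ?_
    rw [norm_neg]
    linarith
  · exact absurd h2 b3

end lo

end Pool.Agent.H79.FM
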