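import Mathlib
import Pool.Agent.H79.FM.Inc2

set_option autoImplicit false
open Finset Filter Topology

/-! # Inclusion of crossing events, III: probabilities and the limit `δ → 0`

`up_lim` (P3', upper bound) and `lo_lim` (P3', lower bound): if `S` is a shape in the position `UpG`
(`LoG`) with respect to `D`, `A`, `B` and `qn S h → q`, then for small `δ` the crossing probability is at
most `1 - q + ε` (at least `1 - q - ε`). -/

namespace Pool.Agent.H79.FM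

open Pool.Agent.H75.Perc (dir dir_cases Co Ad IsUnit4 syT Pr Pr_mono Pr_congr Pr_map Pr_restrict)
open Pool.Agent.Q1.M4 (Cell Reg Om rect IsSide PType)
open Pool.Agent.H33.Q1 (TL tv)
open Pool.Agent.H21.FM
open Pool.Agent.H5.FM (T0 OnS UpG LoG)
open Pool.Agent.H57.FM (ps Cross PC EL PC_eq)

/-! ### Transport -/

lemma map_back (t : ℤ × ℤ) (ω : Finset (ℤ × ℤ)) : (ω.map (syT (-t)).G).map (syT t).G = ω := by
  ext e
  rw [(syT t).mem_map, (syT (-t)).mem_map]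
  have : (syT (-t)).G' ((syT t).G' e) = e := by
    change ((e.1 - 2 * t.1) - 2 * (-t).1, (e.2 - 2 * t.2) - 2 * (-t).2) = e
    refine Prod.ext ?_ ?_ <;> simp
  rw [this]

lemma map_back' (t : ℤ × ℤ) (ω : Finset (ℤ × ℤ)) : (ω.map (syT t).G).map (syT (-t)).G = ω := by
  have := map_back (-t) ω
  rwa [neg_neg] at this

lemma map_inter (t : ℤ × ℤ) (ω E : Finset (ℤ × ℤ)) :
    ω.map (syT (-t)).G ∩ E = (ω ∩ E.map (syT t).G).map (syT (-t)).G := by
  apply (syT (-t)).map_inter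
  intro e
  rw [(syT t).mem_map]
  have : (syT t).G' ((syT (-t)).G' e) = e := by
    change ((e.1 - 2 * (-t).1) - 2 * t.1, (e.2 - 2 * (-t).2) - 2 * t.2) = e
    refine Prod.ext ?_ ?_ <;> simp
  rw [this]

lemma Pr_TT (S : Shape) (h : ℕ) : Pr (EE S h) (TT S h) = 1 - qn S h := by
  unfold qn
  have h1 := Pool.Agent.H75.TwoArm.DecayAux.Pr_not (EE S h) (TT S h)
  linarith

section

variable {S : Shape} {e : ℝ} {z1 : ℂ} {D A B N2 N4 : Set ℂ} {ρ : ℝ}

theorem up_prob (hD : Bornology.IsBounded D) (H : UpG S e z1 D A B ρ N2 N4) {h : ℕ} (hh : 0 < h)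
    {δ η : ℝ} (hδ : 0 < δ) (t : ℤ × ℤ) (hη : 2 * η + 4 * δ < ρ)
    (hcl : ∀ w, ps δ (w + t) ∈ D → ‖T0 e z1 (cc h w) - ps δ (w + t)‖ ≤ η) :
    PC D A B δ ≤ 1 - qn S h := by
  set E1 := (EE S h).map (syT t).G with hE1
  set E := EL D δ ∪ E1 with hE
  rw [PC_eq hD hδ (E := E) subset_union_left, ← Pr_TT]
  have e1 : Pr (EE S h) (TT S h) = Pr E fun ω => TT S h (ω.map (syT (-t)).G ∩ EE S h) := by
    have h1 : (fun ω : Finset (ℤ × ℤ) => TT S h (ω.map (syT (-t)).G ∩ EE S h)) =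
        fun ω => (fun ω' : Finset (ℤ × ℤ) => TT S h (ω'.map (syT (-t)).G)) (ω ∩ E1) := by
      funext ω
      rw [map_inter]
    have hsub : E1 ⊆ E := subset_union_right
    rw [h1, Pr_restrict hsub (fun ω' : Finset (ℤ × ℤ) => TT S h (ω'.map (syT (-t)).G)), hE1,
      Pr_map]
    apply Pr_congr
    intro ω _
    rw [map_back']
  rw [e1]
  apply Pr_mono
  intro ω _ hC
  apply up_det H hh hδ t hη hcl
  rw [map_back]
  exact hC

theorem lo_prob (hD : Bornology.IsBounded D) (H : LoG S e z1 D A B ρ N2 N4) {h : ℕ} (hh : 0 < h)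
    {δ η : ℝ} (hδ : 0 < δ) (hη0 : 0 ≤ η) (t : ℤ × ℤ) (hη : 2 * η + 4 * δ < ρ)
    (hcl : ∀ w, cc h w ∈ Reg S.P.Q gz gz → ‖T0 e z1 (cc h w) - ps δ (w + t)‖ ≤ η) :
    1 - qn S h ≤ PC D A B δ := by
  set E1 := (EE S h).map (syT t).G with hE1
  set E := EL D δ ∪ E1 with hE
  rw [PC_eq hD hδ (E := E) subset_union_left, ← Pr_TT]
  have e1 : Pr (EE S h) (fun ω => Cross D A B δ (ω.map (syT t).G)) =
      Pr E fun ω => Cross D A B δ (ω ∩ E1) := by
    have hsub : E1 ⊆ E := subset_union_right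
    rw [Pr_restrict hsub (Cross D A B δ), hE1, Pr_map]
  refine le_trans (Pr_mono fun ω hω hT => lo_det H hh hδ hη0 t hη hcl hω hT) ?_
  rw [e1]
  exact Pr_mono fun ω _ hC => hC.mono_set inter_subset_left

end

/-! ### Approximation -/

/-- position in the plane, mesh one -/
noncomputable def ll (w : ℤ × ℤ) : ℂ := (w.1 : ℂ) + (w.2 : ℂ) * Complex.I

lemma ps_eq (δ : ℝ) (w : ℤ × ℤ) : ps δ w = (δ : ℂ) * ll w := rfl

lemma ll_add (u v : ℤ × ℤ) : ll (u + v) = ll u + ll v := by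
  unfold ll; simp only [Prod.fst_add, Prod.snd_add]; push_cast; ring

lemma T0_cc {h : ℕ} (hh : 0 < h) (e : ℝ) (z1 : ℂ) (w : ℤ × ℤ) :
    T0 e z1 (cc h w) = ((e / h : ℝ) : ℂ) * ll w + z1 := by
  have hR : (h : ℝ) ≠ 0 := by positivity
  have key : (1 + Complex.I) * cc h w = ((1 / h : ℝ) : ℂ) * ll w := by
    unfold cc ll tv
    apply Complex.ext
    · simp
      field_simp
      ring
    · simp
      field_simp
      ring
  unfold T0
  rw [key]
  push_cast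
  ring

/-- the shift -/
noncomputable def sh (z1 : ℂ) (δ : ℝ) : ℤ × ℤ := (⌊z1.re / δ⌋, ⌊z1.im / δ⌋)

lemma sh_close (z1 : ℂ) {δ : ℝ} (hδ : 0 < δ) : ‖z1 - ps δ (sh z1 δ)‖ ≤ 2 * δ := by
  refine (Complex.norm_le_abs_re_add_abs_im _).trans ?_
  have key : ∀ x : ℝ, |x - δ * (⌊x / δ⌋ : ℤ)| ≤ δ := by
    intro x
    have h1 := Int.floor_le (x / δ)
    have h2 := Int.lt_floor_add_one (x / δ)
    rw [le_div_iff₀ hδ] at h1
    rw [div_lt_iff₀ hδ] at h2
    rw [abs_le]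
    constructor <;> linarith
  have h1 := key z1.re
  have h2 := key z1.im
  rw [Complex.sub_re, Complex.sub_im, Pool.Agent.H57.FM.ps_re, Pool.Agent.H57.FM.ps_im]
  unfold sh
  simp only
  linarith

lemma approx {e : ℝ} (he : 0 < e) (z1 : ℂ) (M : ℝ) {η : ℝ} (hη : 0 < η) :
    ∀ᶠ δ in 𝓝[>] (0 : ℝ), 0 < δ ∧ δ < η ∧ 0 < ⌊e / δ⌋₊ ∧ ∀ w,
      (‖ps δ (w + sh z1 δ)‖ ≤ M ∨ ‖T0 e z1 (cc ⌊e / δ⌋₊ w)‖ ≤ M) →
      ‖T0 e z1 (cc ⌊e / δ⌋₊ w) - ps δ (w + sh z1 δ)‖ ≤ η := by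
  set C : ℝ := 2 / e * (|M| + ‖z1‖ + 2) + 2 with hC
  have hC0 : 0 < C := by positivity
  set δ0 : ℝ := min (min 1 (e / 2)) (min η (η / C)) with hδ0
  have hδ0p : 0 < δ0 := by
    rw [hδ0]
    refine lt_min (lt_min one_pos (by positivity)) (lt_min hη (by positivity))
  filter_upwards [Ioo_mem_nhdsGT hδ0p] with δ hδ
  obtain ⟨hδ1, hδ2⟩ := hδ
  have g1 : δ < 1 := hδ2.trans_le ((min_le_left _ _).trans (min_le_left _ _))
  have g2 : δ < e / 2 := hδ2.trans_le ((min_le_left _ _).trans (min_le_right _ _))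
  have g3 : δ < η := hδ2.trans_le ((min_le_right _ _).trans (min_le_left _ _))
  have g4 : δ < η / C := hδ2.trans_le ((min_le_right _ _).trans (min_le_right _ _))
  set h : ℕ := ⌊e / δ⌋₊ with hh
  have hed : 0 ≤ e / δ := by positivity
  have f1 : (h : ℝ) ≤ e / δ := Nat.floor_le hed
  have f2 : e / δ < h + 1 := Nat.lt_floor_add_one _
  have f3 : e / (2 * δ) ≤ h := by
    have : 1 ≤ e / (2 * δ) := by rw [le_div_iff₀ (by positivity)]; linarith
    have e1 : e / δ = e / (2 * δ) + e / (2 * δ) := by field_simp; ring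
    linarith
  have hhp : (0 : ℝ) < h := lt_of_lt_of_le (by positivity) f3
  have hh0 : 0 < h := by exact_mod_cast hhp
  refine ⟨hδ1, g3, hh0, ?_⟩
  intro w hw
  have k1 : 0 ≤ e / h - δ := by
    rw [le_div_iff₀ hδ1] at f1
    rw [sub_nonneg, le_div_iff₀ hhp]
    linarith
  have k2 : e / h - δ ≤ δ / h := by
    rw [div_lt_iff₀ hδ1] at f2
    rw [sub_le_iff_le_add, div_add' _ _ _ hhp.ne', div_le_div_iff_of_pos_right hhp]
    linarith
  have k3 : 1 / (h : ℝ) ≤ 2 * δ / e := by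
    rw [div_le_div_iff₀ hhp he]
    rw [div_le_iff₀ (by positivity)] at f3
    linarith
  have hs := sh_close z1 hδ1
  -- bound of the first term
  have hL : δ / h * ‖ll w‖ ≤ 2 * δ / e * (|M| + ‖z1‖ + 2) := by
    have hMz : (0 : ℝ) ≤ |M| + ‖z1‖ + 2 := by positivity
    rcases hw with hw | hw
    · rw [ps_eq, ll_add, mul_add] at hw
      have h1 : ‖(δ : ℂ) * ll w‖ ≤ |M| + ‖z1‖ + 2 := by
        have e1 : (δ : ℂ) * ll w = ((δ : ℂ) * ll w + (δ : ℂ) * ll (sh z1 δ)) +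
          (z1 - (δ : ℂ) * ll (sh z1 δ)) - z1 := by ring
        rw [e1]
        have n1 := norm_sub_le (((δ : ℂ) * ll w + (δ : ℂ) * ll (sh z1 δ)) +
          (z1 - (δ : ℂ) * ll (sh z1 δ))) z1
        have n2 := norm_add_le ((δ : ℂ) * ll w + (δ : ℂ) * ll (sh z1 δ))
          (z1 - (δ : ℂ) * ll (sh z1 δ))
        rw [← ps_eq δ (sh z1 δ)] at n1 n2 hw ⊢
        have := le_abs_self M
        linarith
      rw [norm_mul, Complex.norm_real, Real.norm_of_nonneg hδ1.le] at h1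
      have e2 : δ / h * ‖ll w‖ = 1 / h * (δ * ‖ll w‖) := by ring
      rw [e2]
      exact mul_le_mul k3 h1 (by positivity) (by positivity)
    · rw [T0_cc hh0] at hw
      have h1 : ‖((e / h : ℝ) : ℂ) * ll w‖ ≤ |M| + ‖z1‖ + 2 := by
        have e1 : ((e / h : ℝ) : ℂ) * ll w = (((e / h : ℝ) : ℂ) * ll w + z1) - z1 := by ring
        rw [e1]
        have n1 := norm_sub_le (((e / h : ℝ) : ℂ) * ll w + z1) z1
        have := le_abs_self M
        linarith
      rw [norm_mul, Complex.norm_real, Real.norm_of_nonneg (by positivity)] at h1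
      have e2 : δ / h * ‖ll w‖ = δ / e * (e / h * ‖ll w‖) := by field_simp
      rw [e2]
      refine mul_le_mul ?_ h1 (by positivity) (by positivity)
      rw [div_le_div_iff_of_pos_right he]
      linarith
  rw [T0_cc hh0, ps_eq, ll_add]
  have e3 : ((e / h : ℝ) : ℂ) * ll w + z1 - (δ : ℂ) * (ll w + ll (sh z1 δ)) =
      ((e / h - δ : ℝ) : ℂ) * ll w + (z1 - ps δ (sh z1 δ)) := by
    rw [ps_eq]; push_cast; ring
  rw [e3]
  refine (norm_add_le _ _).trans ?_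
  rw [norm_mul, Complex.norm_real, Real.norm_of_nonneg k1]
  have h5 : (e / h - δ) * ‖ll w‖ ≤ δ / h * ‖ll w‖ :=
    mul_le_mul_of_nonneg_right k2 (norm_nonneg _)
  have h6 : δ * C ≤ η := by
    rw [lt_div_iff₀ hC0] at g4
    exact g4.le
  have h7 : δ * C = 2 * δ / e * (|M| + ‖z1‖ + 2) + 2 * δ := by rw [hC]; ring
  linarith

lemma floor_top {e : ℝ} (he : 0 < e) :
    Tendsto (fun δ : ℝ => ⌊e / δ⌋₊) (𝓝[>] (0 : ℝ)) atTop := by
  refine tendsto_nat_floor_atTop.comp ?_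
  have := (tendsto_inv_nhdsGT_zero (𝕜 := ℝ)).const_mul_atTop he
  refine this.congr fun δ => ?_
  rw [div_eq_mul_inv]

section

variable {S : Shape} {e : ℝ} {z1 : ℂ} {D A B N2 N4 : Set ℂ} {ρ : ℝ}

/-- **(P3', upper bound)** -/
theorem up_lim (hD : Bornology.IsBounded D) (H : UpG S e z1 D A B ρ N2 N4) {q : ℝ}
    (hq : Tendsto (fun h => qn S h) atTop (𝓝 q)) {ε : ℝ} (hε : 0 < ε) :
    ∀ᶠ δ in 𝓝[>] (0 : ℝ), PC D A B δ ≤ 1 - q + ε := by
  obtain ⟨M, hM⟩ := hD.exists_norm_le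
  have hη : 0 < ρ / 7 := by have := H.ρ0; positivity
  have h1 := (hq.comp (floor_top H.e0)).eventually (lt_mem_nhds (show q - ε < q by linarith))
  filter_upwards [h1, approx H.e0 z1 M hη] with δ g1 g2
  obtain ⟨k1, k2, k3, k4⟩ := g2
  have := up_prob hD H k3 k1 (sh z1 δ) (η := ρ / 7) (by linarith)
    (fun w hw => k4 w (Or.inl (hM _ hw)))
  simp only [Function.comp_apply] at g1
  linarith

lemma isBounded_Reg (Q : Finset Cell) : Bornology.IsBounded (Reg Q gz gz) := by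
  have e : Reg Q gz gz = ⋃ c ∈ Q, rect gz gz c := by
    ext z
    simp [Reg]
  rw [e, Bornology.isBounded_biUnion_finset]
  intro c _
  have : rect gz gz c ⊆ Set.Icc (gz c.1) (gz (c.1 + 1)) ×ℂ Set.Icc (gz c.2) (gz (c.2 + 1)) := by
    intro z hz
    rw [Complex.mem_reProdIm]
    exact hz
  exact ((Metric.isBounded_Icc _ _).reProdIm (Metric.isBounded_Icc _ _)).subset this

/-- **(P3', lower bound)** -/
theorem lo_lim (hD : Bornology.IsBounded D) (H : LoG S e z1 D A B ρ N2 N4) {q : ℝ}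
    (hq : Tendsto (fun h => qn S h) atTop (𝓝 q)) {ε : ℝ} (hε : 0 < ε) :
    ∀ᶠ δ in 𝓝[>] (0 : ℝ), 1 - q - ε ≤ PC D A B δ := by
  obtain ⟨K, hK⟩ := (isBounded_Reg S.P.Q).exists_norm_le
  set M : ℝ := e * (2 * K) + ‖z1‖ with hMdef
  have hM : ∀ z ∈ Reg S.P.Q gz gz, ‖T0 e z1 z‖ ≤ M := by
    intro z hz
    unfold T0
    refine (norm_add_le _ _).trans ?_
    rw [norm_mul, Complex.norm_real, Real.norm_of_nonneg H.e0.le, norm_mul]
    have h1 := hK z hz
    have h2 : ‖(1 : ℂ) + Complex.I‖ ≤ 2 := by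
      refine (norm_add_le _ _).trans ?_
      rw [norm_one, Complex.norm_I]; norm_num
    have h3 : ‖(1 : ℂ) + Complex.I‖ * ‖z‖ ≤ 2 * K :=
      mul_le_mul h2 h1 (norm_nonneg _) (by norm_num)
    have h4 := mul_le_mul_of_nonneg_left h3 H.e0.le
    linarith
  have hη : 0 < ρ / 7 := by have := H.ρ0; positivity
  have h1 := (hq.comp (floor_top H.e0)).eventually (gt_mem_nhds (show q < q + ε by linarith))
  filter_upwards [h1, approx H.e0 z1 M hη] with δ g1 g2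
  obtain ⟨k1, k2, k3, k4⟩ := g2
  have := lo_prob hD H k3 k1 hη.le (sh z1 δ) (η := ρ / 7) (by linarith)
    (fun w hw => k4 w (Or.inr (hM _ hw)))
  simp only [Function.comp_apply] at g1
  linarith

end

end Pool.Agent.H79.FM
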